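import Pool.Agent.L0h82.GT.Stm

/-!
# Board GT, module JOR
-/

set_option autoImplicit false

namespace Pool.Agent.L0h4.GT

open Pool.Agent.L0h82.GT
open Equiv

universe u

variable {X : Type u}

/-- the induced group -/
def Hg (G : Subgroup (Equiv.Perm X)) (v : Fin 5 → X) : Subgroup (Equiv.Perm (Fin 5)) where
  carrier := {σ | ∃ g ∈ G, ∀ i, g (v i) = v (σ i)}
  one_mem' := ⟨1, G.one_mem, fun i => rfl⟩
  mul_mem' := by
    rintro σ τ ⟨g, hg, h1⟩ ⟨k, hk, h2⟩
    exact ⟨g * k, G.mul_mem hg hk, fun i => by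
      show g (k (v i)) = v (σ (τ i))
      rw [h2, h1]⟩
  inv_mem' := by
    rintro σ ⟨g, hg, h1⟩
    refine ⟨g⁻¹, G.inv_mem hg, fun i => ?_⟩
    rw [Equiv.Perm.inv_eq_iff_eq, h1]
    show v i = v (σ (σ.symm i))
    rw [Equiv.apply_symm_apply]

theorem perm_of {G : Subgroup (Equiv.Perm X)} {v : Fin 5 → X} (hv : Function.Injective v)
    {g : Equiv.Perm X} (hg : g ∈ G) (h : ∀ i, ∃ j, g (v i) = v j) :
    ∃ σ ∈ Hg G v, ∀ i, g (v i) = v (σ i) := by
  choose f hf using h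
  have hinj : Function.Injective f := by
    intro i j hij
    apply hv
    apply g.injective
    rw [hf, hf, hij]
  exact ⟨Equiv.ofBijective f (Finite.injective_iff_bijective.1 hinj), ⟨g, hg, hf⟩, hf⟩

theorem all_of {y a b c d : Fin 5} (hn : [y, a, b, c, d].Nodup) (i : Fin 5) :
    i = y ∨ i = a ∨ i = b ∨ i = c ∨ i = d := by
  have hu : [y, a, b, c, d].toFinset = Finset.univ :=
    Finset.eq_univ_of_card _ (by rw [List.toFinset_card_of_nodup hn]; rfl)
  have h1 : i ∈ [y, a, b, c, d].toFinset := by rw [hu]; exact Finset.mem_univ _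
  simpa using h1

theorem swp {G : Subgroup (Equiv.Perm X)} (hG : Gen G) {v : Fin 5 → X}
    (hv : Function.Injective v) (y a b c d : Fin 5) (hn : [y, a, b, c, d].Nodup) :
    ∃ σ ∈ Hg G v, (σ a = c ∨ σ a = d) ∧ (σ b = c ∨ σ b = d) := by
  classical
  have hall := all_of hn
  simp only [List.nodup_cons, List.mem_cons, List.not_mem_nil, or_false, not_or,
    List.nodup_nil, and_true, not_false_eq_true] at hn
  obtain ⟨⟨ya, yb, yc, yd⟩, ⟨ab, ac, ad⟩, ⟨bc, bd⟩, cd⟩ := hn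
  obtain ⟨g, hg, h1, h2⟩ := hG {v y, v a, v b} {v y, v c, v d}
    (Finset.card_eq_three.2 ⟨v y, v a, v b, hv.ne ya, hv.ne yb, hv.ne ab, rfl⟩)
    (Finset.card_eq_three.2 ⟨v y, v c, v d, hv.ne yc, hv.ne yd, hv.ne cd, rfl⟩)
  simp only [Finset.mem_insert, Finset.mem_singleton] at h1 h2
  have e1 := h1 (v y) (Or.inl rfl)
  have e2 := h1 (v a) (Or.inr (Or.inl rfl))
  have e3 := h1 (v b) (Or.inr (Or.inr rfl))
  have e4 := h2 (v y) (Or.inl rfl)
  have e5 := h2 (v c) (Or.inr (Or.inl rfl))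
  have e6 := h2 (v d) (Or.inr (Or.inr rfl))
  obtain ⟨σ, hσ, h3⟩ := perm_of hv hg (fun i => by
    rcases hall i with rfl | rfl | rfl | rfl | rfl
    · rcases e1 with h | h | h <;> exact ⟨_, h⟩
    · rcases e2 with h | h | h <;> exact ⟨_, h⟩
    · rcases e3 with h | h | h <;> exact ⟨_, h⟩
    · rcases e5 with h | h | h <;> exact ⟨_, h⟩
    · rcases e6 with h | h | h <;> exact ⟨_, h⟩)
  have hy : σ y = y := by
    rw [h3] at e1 e4
    rcases e1 with h | h | h
    · exact hv h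
    · rcases e4 with k | k | k
      · exact hv k
      · exact absurd ((hv h).symm.trans (hv k)) (Ne.symm ac)
      · exact absurd ((hv h).symm.trans (hv k)) (Ne.symm bc)
    · rcases e4 with k | k | k
      · exact hv k
      · exact absurd ((hv h).symm.trans (hv k)) (Ne.symm ad)
      · exact absurd ((hv h).symm.trans (hv k)) (Ne.symm bd)
  refine ⟨σ, hσ, ?_, ?_⟩
  · rw [h3] at e2
    rcases e2 with h | h | h
    · exact absurd (σ.injective ((hv h).trans hy.symm)) (Ne.symm ya)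
    · exact Or.inl (hv h)
    · exact Or.inr (hv h)
  · rw [h3] at e3
    rcases e3 with h | h | h
    · exact absurd (σ.injective ((hv h).trans hy.symm)) (Ne.symm yb)
    · exact Or.inl (hv h)
    · exact Or.inr (hv h)

theorem ex_three : ∀ p q : Fin 5, p ≠ q → ∃ y r s : Fin 5, [y, p, r, q, s].Nodup := by decide

theorem trans {G : Subgroup (Equiv.Perm X)} (hG : Gen G) {v : Fin 5 → X}
    (hv : Function.Injective v) (p q : Fin 5) : ∃ σ ∈ Hg G v, σ p = q := by
  by_cases hpq : p = q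
  · exact ⟨1, one_mem _, hpq⟩
  obtain ⟨y, r, s, hn⟩ := ex_three p q hpq
  have hn' : [y, p, s, q, r].Nodup := by
    simp only [List.nodup_cons, List.mem_cons, List.not_mem_nil, or_false, not_or,
      List.nodup_nil, and_true, not_false_eq_true] at hn ⊢
    obtain ⟨⟨ya, yb, yc, yd⟩, ⟨ab, ac, ad⟩, ⟨bc, bd⟩, cd⟩ := hn
    exact ⟨⟨ya, yd, yc, yb⟩, ⟨ad, ac, ab⟩, ⟨Ne.symm cd, Ne.symm bd⟩, Ne.symm bc⟩
  have hpr : p ≠ r := by
    simp only [List.nodup_cons, List.mem_cons, List.not_mem_nil, or_false, not_or] at hn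
    exact hn.2.1.1
  obtain ⟨σ, hσ, h1, h2⟩ := swp hG hv y p r q s hn
  rcases h1 with h1 | h1
  · exact ⟨σ, hσ, h1⟩
  have h3 : σ r = q := h2.resolve_right (fun h => hpr (σ.injective (h1.trans h.symm)))
  obtain ⟨τ, hτ, h4, -⟩ := swp hG hv y p s q r hn'
  rcases h4 with h4 | h4
  · exact ⟨τ, hτ, h4⟩
  · exact ⟨σ * τ, mul_mem hσ hτ, by rw [Equiv.Perm.mul_apply, h4, h3]⟩

/-- the values of the `3`-cycle -/
theorem cyc_vals {a b c d e : Fin 5} (hn : [a, b, c, d, e].Nodup) :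
    (swap a c * swap a b) a = b ∧ (swap a c * swap a b) b = c ∧ (swap a c * swap a b) c = a ∧
    (swap a c * swap a b) d = d ∧ (swap a c * swap a b) e = e ∧
    (swap a c * swap a b).IsThreeCycle := by
  simp only [List.nodup_cons, List.mem_cons, List.not_mem_nil, or_false, not_or,
    List.nodup_nil, and_true, not_false_eq_true] at hn
  obtain ⟨⟨ab, ac, ad, ae⟩, ⟨bc, bd, be⟩, ⟨cd, ce⟩, de⟩ := hn
  refine ⟨?_, ?_, ?_, ?_, ?_, Equiv.Perm.isThreeCycle_swap_mul_swap_same ac ab (Ne.symm bc)⟩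
  · rw [Equiv.Perm.mul_apply, swap_apply_left, swap_apply_of_ne_of_ne (Ne.symm ab) bc]
  · rw [Equiv.Perm.mul_apply, swap_apply_right, swap_apply_left]
  · rw [Equiv.Perm.mul_apply, swap_apply_of_ne_of_ne (Ne.symm ac) (Ne.symm bc), swap_apply_right]
  · rw [Equiv.Perm.mul_apply, swap_apply_of_ne_of_ne (Ne.symm ad) (Ne.symm bd),
      swap_apply_of_ne_of_ne (Ne.symm ad) (Ne.symm cd)]
  · rw [Equiv.Perm.mul_apply, swap_apply_of_ne_of_ne (Ne.symm ae) (Ne.symm be),
      swap_apply_of_ne_of_ne (Ne.symm ae) (Ne.symm ce)]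

theorem nodup_fin {a b c d e : ℕ} (ha : a < 5) (hb : b < 5) (hc : c < 5) (hd : d < 5) (he : e < 5)
    (hn : [a, b, c, d, e].Nodup) :
    [(⟨a, ha⟩ : Fin 5), ⟨b, hb⟩, ⟨c, hc⟩, ⟨d, hd⟩, ⟨e, he⟩].Nodup := by
  simp only [List.nodup_cons, List.mem_cons, List.not_mem_nil, or_false, not_or,
    List.nodup_nil, and_true, not_false_eq_true, Fin.mk.injEq] at hn ⊢
  exact hn

/-- **JOR** -/
theorem t_JOR : S_JOR.{u} := by
  intro X G w hG hw hno a b c d e ha hb hc hd he hn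
  set v : Fin 5 → X := fun i => w i with hvdef
  have hv : Function.Injective v := by
    intro i j hij
    exact Fin.ext (hw i.2 j.2 hij)
  unfold NoC3 at hno
  push Not at hno
  obtain ⟨a', b', c', d', e', ha', hb', hc', hd', he', hn', g, hg, g1, g2, g3, g4, g5⟩ := hno
  have hN := nodup_fin ha' hb' hc' hd' he' hn'
  obtain ⟨k1, k2, k3, k4, k5, k6⟩ := cyc_vals hN
  have hmem : (swap (⟨a', ha'⟩ : Fin 5) ⟨c', hc'⟩ * swap ⟨a', ha'⟩ ⟨b', hb'⟩) ∈ Hg G v := by
    refine ⟨g, hg, fun i => ?_⟩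
    rcases all_of hN i with rfl | rfl | rfl | rfl | rfl
    · rw [k1]; exact g1
    · rw [k2]; exact g2
    · rw [k3]; exact g3
    · rw [k4]; exact g4
    · rw [k5]; exact g5
  have htr : MulAction.IsPretransitive (Hg G v) (Fin 5) := ⟨fun p q => by
    obtain ⟨σ, hσ, h⟩ := trans hG hv p q
    exact ⟨⟨σ, hσ⟩, h⟩⟩
  have hprim : MulAction.IsPreprimitive (Hg G v) (Fin 5) :=
    MulAction.IsPreprimitive.of_prime_card (by
      rw [Nat.card_eq_fintype_card, Fintype.card_fin]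
      norm_num)
  have hA := Equiv.Perm.alternatingGroup_le_of_isPreprimitive_of_isThreeCycle_mem hprim k6 hmem
  obtain ⟨m1, m2, m3, m4, m5, m6⟩ := cyc_vals (nodup_fin ha hb hc hd he hn)
  obtain ⟨f, hf, hfv⟩ := hA m6.mem_alternatingGroup
  refine ⟨f, hf, ?_, ?_, ?_, ?_, ?_⟩
  · have := hfv ⟨a, ha⟩
    rw [m1] at this
    exact this
  · have := hfv ⟨b, hb⟩
    rw [m2] at this
    exact this
  · have := hfv ⟨c, hc⟩
    rw [m3] at this
    exact this
  · have := hfv ⟨d, hd⟩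
    rw [m4] at this
    exact this
  · have := hfv ⟨e, he⟩
    rw [m5] at this
    exact this

end Pool.Agent.L0h4.GT
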